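import Mathlib
import Pool.Agent.V1128.Cyc.Final

set_option autoImplicit false

/-!
For every prime `p` and every `d ≥ 3`, the pro-`p` group
`⟨x₁, y₁, …, x_d, y_d | [x_i, y_i] = [x_{i+1}, y_{i+1}]⟩` is not 1-cyclotomic.

* `ProPPres p X R` is the pro-`p` group presented by `X` and `R`: the closure of the image of the free
  group on `X` in the product of its (discrete) quotients by the normal subgroups of index a power
  of `p` that contain `R`, with the topology of the product.
* `chainRel d` is the set of the words `[x_i, y_i][x_{i+1}, y_{i+1}]⁻¹`, where `x_i = (i, false)` and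
  `y_i = (i, true)`, `i : Fin d`.
* `Chain p d` is the pro-`p` group presented by `chainRel d`.
* `OneCyclotomic p G`: there is a continuous `θ : G → ℤ_pˣ` with `Cyclotomic θ`.
* `Cyclotomic θ`: for every open subgroup `U` and `n ≥ 1`, every continuous cocycle
  `U → ℤ_p(1)/p` is, up to a coboundary, the reduction of a continuous cocycle `U → ℤ_p(1)/p^n`.
-/

namespace Pool.Agent.Results.MP_cf27b7_al.NotCyclotomic

open Pool.Agent.V1128.Cyc

theorem result : ∀ (p : ℕ) [Fact p.Prime] (d : ℕ), 3 ≤ d → ¬ OneCyclotomic p (Chain p d) := by
  intro p _ d hd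
  exact main p d hd

end Pool.Agent.Results.MP_cf27b7_al.NotCyclotomic
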